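import Pool.Agent.H483.NP.Cou

/-!
# Q1 fails near every member of the Selberg class, for all common zeros and for all possible divisors at once

The elements of the Selberg class `𝒮` are represented by their coefficients, as elements of the ring of
arithmetic functions with Dirichlet convolution; `H_a` is the Euler product `∏_p (1 + a(p) p^{-s})`. We show (`result`):

1. `ζ` has a zero on the critical line.
2. Let `F` be ANY element of `𝒮`, of degree `d`, with `(s - 1)^m F(s)` entire, let `0 < δ ≤ 77/400`, and let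
   `∏ Γ(l_j s + ν_j)` be ANY gamma factor of degree `> d + 1/δ` in which at least `m` of the `ν_j` are `0`. For every
   large real `q` and every `|ε| = 1` there is a `H_a` with `|a(p)| ≤ 1` and `∑_p |a(p)| p^{-σ} < ∞` for all
   `σ > 1/2 + δ`, such that `F H_a` is in `𝒮`, with exactly the data `(q; l_j, ν_j; ε)` in the functional equation and with
   a pole of the same order at `s = 1`, and `(F H_a)(ρ) ≠ 0` at EVERY zero `ρ` of `F` with `|Re ρ - 1/2| < δ`, and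
   `(F H_a)(z) ≠ 0` for all `z` with `Re z < 0` which are not poles of the gamma factor.
3. Let `F`, `d`, `m`, `δ` be as before and let `E` be ANY countable set. Some `F H_a` in `𝒮`, with a pole of the same order
   and `(F H_a)(ρ) ≠ 0` at every zero `ρ` of `F` with `|Re ρ - 1/2| < δ`, has no zero `z` with `Re z < 0` in common with
   any `D ∈ E ∩ 𝒮`, and for every `D ∈ E ∩ 𝒮`, `D ≠ 1`, the quotient `F H_a / D` is not entire. Moreover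
   `(F H_a)(-2n) ≠ 0` for all `n ≥ 1`, and `F H_a / ζ^j` is not entire for any `j ≥ 1`. The gamma factor is
   `Γ(L s)^{m + 1}`, and the degree is below any number `> d + 1/δ`.
4. The case `F = ζ^m` of 2: for every gamma factor of degree `> m + 400/77` with at least `m` of the `ν_j` equal to `0`,
   `ζ^m H_a` is in `𝒮` and does not vanish at any zero `ρ` of `ζ` with `|Re ρ - 1/2| < 77/400`.
-/

set_option autoImplicit false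

open Complex

namespace Pool.Agent.Results.MP_995735_nt.NearEveryElement

/-- The completed function `Φ(s) = Q^s ∏_{j < k} Γ(λ_j s + μ_j) F(s)`; here `G` is the entire function
`(s - 1)^m F(s)`. -/
noncomputable def Phi (m : ℕ) (G : ℂ → ℂ) (Q : ℝ) (k : ℕ) (lam : Fin k → ℝ) (mu : Fin k → ℂ) (s : ℂ) : ℂ :=
  (Q : ℂ) ^ s * (∏ j, Gamma ((lam j : ℂ) * s + mu j)) * (G s / (s - 1) ^ m)

/-- no factor `Γ(λ_j s + μ_j)` has a pole at `s` -/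
def NoPole (k : ℕ) (lam : Fin k → ℝ) (mu : Fin k → ℂ) (s : ℂ) : Prop :=
  ∀ j, ∀ t : ℕ, (lam j : ℂ) * s + mu j ≠ -(t : ℂ)

/-- `G` is the function `(s - 1)^m F(s)`, entire of finite order, and `F` satisfies the functional equation with the
data `Q`, `λ_j`, `μ_j`, `ω` (at all points which are not poles). -/
def HasData (a : ArithmeticFunction ℂ) (m : ℕ) (G : ℂ → ℂ) (Q : ℝ) (k : ℕ) (lam : Fin k → ℝ) (mu : Fin k → ℂ)
    (ω : ℂ) : Prop :=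
  Differentiable ℂ G ∧ (∃ A B : ℝ, ∀ z : ℂ, ‖G z‖ ≤ A * Real.exp (‖z‖ ^ B)) ∧
    (∀ s : ℂ, 1 < s.re → G s = (s - 1) ^ m * LSeries (fun n => a n) s) ∧ 0 < Q ∧ (∀ j, 0 < lam j) ∧
      (∀ j, 0 ≤ (mu j).re) ∧ ‖ω‖ = 1 ∧
      ∀ s : ℂ, s ≠ 0 → s ≠ 1 → NoPole k lam mu s → NoPole k lam mu (1 - starRingEnd ℂ s) →
        Phi m G Q k lam mu s = ω * starRingEnd ℂ (Phi m G Q k lam mu (1 - starRingEnd ℂ s))

/-- `G` is the entire function `(s - 1)^m F(s)`, `F(s) = ∑ a(n) n^{-s}` (and its continuation) -/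
def IsCont (a : ArithmeticFunction ℂ) (m : ℕ) (G : ℂ → ℂ) : Prop :=
  Differentiable ℂ G ∧ ∀ s : ℂ, 1 < s.re → G s = (s - 1) ^ m * LSeries (fun n => a n) s

/-- The Selberg class: `IsSelberg a` says that `F(s) = ∑ a(n) n^{-s}` belongs to it. (By the Euler product `a(1) = 1`.) -/
structure IsSelberg (a : ArithmeticFunction ℂ) : Prop where
  /-- `a(1) = 1` -/
  one : a 1 = 1
  /-- absolute convergence for `Re s > 1` -/
  conv : ∀ s : ℂ, 1 < s.re → LSeriesSummable (fun n => a n) s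
  /-- the Ramanujan bound `a(n) ≪ n^ε` -/
  ramanujan : ∀ ε : ℝ, 0 < ε → ∃ C : ℝ, ∀ n : ℕ, 1 ≤ n → ‖a n‖ ≤ C * (n : ℝ) ^ ε
  /-- continuation and functional equation -/
  cont : ∃ (m : ℕ) (G : ℂ → ℂ) (Q : ℝ) (k : ℕ) (lam : Fin k → ℝ) (mu : Fin k → ℂ) (ω : ℂ),
    HasData a m G Q k lam mu ω
  /-- `log F(s) = ∑ b(n) n^{-s}` with `b(n) = 0` unless `n` is a prime power, `b(n) ≪ n^θ`, `θ < 1/2` -/
  euler : ∃ (b : ℕ → ℂ) (θ : ℝ), θ < 1 / 2 ∧ (∀ n : ℕ, ¬ IsPrimePow n → b n = 0) ∧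
    (∃ C : ℝ, ∀ n : ℕ, 1 ≤ n → ‖b n‖ ≤ C * (n : ℝ) ^ θ) ∧
    ∀ s : ℂ, 1 < s.re → LSeriesSummable b s ∧ exp (LSeries b s) = LSeries (fun n => a n) s

/-- the coefficients of the Euler product `∏_p (1 + a(p) p^{-s})` -/
noncomputable def H (a : ℕ → ℂ) : ArithmeticFunction ℂ :=
  ⟨fun n => if Squarefree n then ∏ p ∈ n.primeFactors, a p else 0, if_neg not_squarefree_zero⟩

/-- `|a(p)| ≤ 1` and `∑_p |a(p)| p^{-σ} < ∞` for all `σ > σ₀` -/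
def IsSmall (a : ℕ → ℂ) (σ₀ : ℝ) : Prop :=
  (∀ p, ‖a p‖ ≤ 1) ∧ ∀ σ : ℝ, σ₀ < σ → Summable fun p : Nat.Primes => ‖a p‖ * ((p : ℕ) : ℝ) ^ (-σ)

/-- the coefficients of `ζ(s)` -/
noncomputable def Zeta : ArithmeticFunction ℂ :=
  ((ArithmeticFunction.zeta : ArithmeticFunction ℕ) : ArithmeticFunction ℂ)

open Pool.Agent.H336R4 in
lemma data_iff {a : ArithmeticFunction ℂ} {m : ℕ} {G : ℂ → ℂ} {Q : ℝ} {k : ℕ} {lam : Fin k → ℝ} {mu : Fin k → ℂ}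
    {ω : ℂ} : HasData a m G Q k lam mu ω ↔ PF.Cont (fun n => a n) m G ∧ 0 < Q ∧ PF.FE m G Q k lam mu ω := by
  constructor
  · rintro ⟨g1, ⟨A, B, g2⟩, g3, g4, g5, g6, g7, g8⟩
    refine ⟨⟨g1, ⟨B, A, g2⟩, g3⟩, g4, g5, g6, g7, fun s hs0 hs1 => ?_⟩
    have hnp : ∀ z : ℂ, 0 < z.re → NoPole k lam mu z := by
      intro z hz j t heq
      have := congrArg Complex.re heq
      simp at this
      have h3 := mul_pos (g5 j) hz
      have h4 := g6 j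
      have h5 : (0:ℝ) ≤ t := Nat.cast_nonneg t
      linarith
    exact g8 s (by rintro rfl; simp at hs0) (by rintro rfl; simp at hs1) (hnp s hs0)
      (hnp _ (by simp; linarith))
  · rintro ⟨⟨g1, ⟨B, A, g2⟩, g3⟩, g4, hFE⟩
    exact ⟨g1, ⟨A, B, g2⟩, g3, g4, hFE.1, hFE.2.1, hFE.2.2.1, fun s h0 h1 hp hp' =>
      Pool.Agent.H177R3.Lit.fe_ext g1 g4 hFE h0 h1 hp hp'⟩

open Pool.Agent.H336R4 Pool.Agent.H483 in
lemma isSelberg_iff (a : ArithmeticFunction ℂ) : IsSelberg a ↔ UF.S a := by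
  constructor
  · rintro ⟨h1, h2, h4, ⟨m, G, Q, k, lam, μ, ε, hd⟩, ⟨b, θ, hθ, hb0, ⟨C, hb⟩, he⟩⟩
    obtain ⟨⟨c1, c2, c3⟩, hQ, e1, e2, e3, e4⟩ := data_iff.1 hd
    exact ⟨h1, h4, ⟨m, G, c1, c2, c3, Q, hQ, k, lam, μ, ε, e1, e2, e3, e4⟩, b, hb0, θ, hθ, C, hb,
      fun s hs => ((he s hs).2).symm⟩
  · intro hS
    obtain ⟨h1, h4, ⟨m, G, c1, c2, c3, Q, hQ, k, lam, μ, ε, e1, e2, e3, e4⟩, b, hb0, θ, hθ, C, hb, he⟩ := id hS
    exact ⟨h1, fun s hs => hS.sum hs, h4, ⟨m, G, Q, k, lam, μ, ε, data_iff.2 ⟨⟨c1, c2, c3⟩, hQ, e1, e2, e3, e4⟩⟩,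
      b, θ, hθ, hb0, ⟨C, hb⟩, fun s hs => ⟨Pool.Agent.H177R3.Lit.b_summable h1 hS.ram hb0 hθ hb
        (fun s hs => he s (by linarith)) hs, (he s hs).symm⟩⟩

open Pool.Agent.H483 in
lemma small_of {a : ℕ → ℂ} {σ₀ : ℝ} (h1 : ∀ p, ‖a p‖ ≤ 1) (h2 : ∀ s : ℂ, σ₀ < s.re → LSeriesSummable (SA.cf a) s) :
    IsSmall a σ₀ := by
  refine ⟨h1, fun σ hσ => ?_⟩
  have h1 := (h2 (σ : ℂ) (by rw [Complex.ofReal_re]; exact hσ)).norm
  have h2 := h1.comp_injective (Nat.Primes.coe_nat_injective)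
  refine h2.congr fun p => ?_
  rw [Function.comp_apply, LSeries.norm_term_eq, if_neg p.2.ne_zero, SA.cf_prime a p.2, Complex.ofReal_re,
    Real.rpow_neg (Nat.cast_nonneg _), div_eq_mul_inv]

open Pool.Agent.H483 in
/-- part 2 -/
theorem main (F : ArithmeticFunction ℂ) (m : ℕ) (G : ℂ → ℂ) (Q : ℝ) (k : ℕ) (lam : Fin k → ℝ) (mu : Fin k → ℂ)
    (ω : ℂ) (hF : IsSelberg F) (hdat : HasData F m G Q k lam mu ω) (δ : ℝ) (hδ : 0 < δ) (hδ2 : δ ≤ 77 / 400)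
    (r : ℕ) (l : Fin r → ℝ) (ν : Fin r → ℂ) (hl : ∀ j, 0 < l j) (hν : ∀ j, 0 ≤ (ν j).re)
    (hdeg : 2 * ∑ j, lam j + 1 / δ < 2 * ∑ j, l j) (hm : m ≤ {j : Fin r | ν j = 0}.ncard) :
    ∃ q₀ : ℝ, ∀ q : ℝ, q₀ ≤ q → ∀ ε : ℂ, ‖ε‖ = 1 → ∃ (a : ℕ → ℂ) (G' : ℂ → ℂ), IsSmall a (1 / 2 + δ) ∧
        IsSelberg (F * H a) ∧ HasData (F * H a) m G' q r l ν ε ∧ (G 1 ≠ 0 → G' 1 ≠ 0) ∧
        (∀ ρ : ℂ, |ρ.re - 1 / 2| < δ → G ρ = 0 → G' ρ ≠ 0) ∧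
        ∀ z : ℂ, z.re < 0 → NoPole r l ν z → G' z ≠ 0 := by
  classical
  obtain ⟨hc, hQ, hFE⟩ := data_iff.1 hdat
  have hS := (isSelberg_iff F).1 hF
  obtain ⟨J, hJ1, hJ2⟩ : ∃ J : Finset (Fin r), J.card = m ∧ ∀ j ∈ J, ν j = 0 := by
    have h1 : {j : Fin r | ν j = 0}.ncard = (Finset.univ.filter fun j => ν j = 0).card := by
      rw [← Set.ncard_coe_finset]
      congr 1
      ext j
      simp
    rw [h1] at hm
    obtain ⟨J, hJs, hJc⟩ := Finset.exists_subset_card_eq hm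
    exact ⟨J, hJc, fun j hj => (Finset.mem_filter.1 (hJs hj)).2⟩
  obtain ⟨Q₀, hQ₀, h⟩ := NP.master' hS hc hQ hFE hl hν hJ1 hJ2 hδ hδ2 (by
    have h2 : 1 / δ < 2 * ∑ j, l j - 2 * ∑ j, lam j := by linarith
    rw [div_lt_iff₀ hδ] at h2
    linarith)
  refine ⟨Q₀, fun q hq ε hε => ?_⟩
  obtain ⟨a, G', a1, a2, a3, a4, a5, a6⟩ := h q hq ε hε
  have hq0 : 0 < q := lt_of_lt_of_le hQ₀ hq
  have hcls := NP.mul_S hS a2 a4 hq0 a5
  have hS' := Pool.Agent.H177R3.PFV.cls_ss hcls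
  refine ⟨a, G', small_of a2 a3, (isSelberg_iff _).2 hS', data_iff.2 ⟨a4, hq0, a5⟩,
    fun hG1 => ?_, a6, fun z hz hnp hG => ?_⟩
  · obtain ⟨h3, h4⟩ := NP.value_one hS hc a2 (by linarith) a3 a4
    rw [h3]
    exact mul_ne_zero hG1 h4
  · obtain ⟨j, n, hj⟩ := NP.zero_loc' hS' a4 hq0 a5 hz hG
    exact hnp j n hj

open Pool.Agent.H483 in
/-- part 3 -/
theorem main2 (F : ArithmeticFunction ℂ) (m : ℕ) (G : ℂ → ℂ) (Q : ℝ) (k : ℕ) (lam : Fin k → ℝ) (mu : Fin k → ℂ)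
    (ω : ℂ) (hF : IsSelberg F) (hdat : HasData F m G Q k lam mu ω) (δ : ℝ) (hδ : 0 < δ) (hδ2 : δ ≤ 77 / 400)
    (η : ℝ) (hη : 2 * ∑ j, lam j + 1 / δ < η) (E : Set (ArithmeticFunction ℂ)) (hE : E.Countable) :
    ∃ (a : ℕ → ℂ) (G' : ℂ → ℂ) (q L : ℝ), 2 * ((m + 1) * L) < η ∧ IsSmall a (1 / 2 + δ) ∧
      IsSelberg (F * H a) ∧ HasData (F * H a) m G' q (m + 1) (fun _ => L) (fun _ => 0) 1 ∧ (G 1 ≠ 0 → G' 1 ≠ 0) ∧
      (∀ ρ : ℂ, |ρ.re - 1 / 2| < δ → G ρ = 0 → G' ρ ≠ 0) ∧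
      (∀ D ∈ E, IsSelberg D →
        (∀ (n : ℕ) (GD : ℂ → ℂ), IsCont D n GD → ∀ z : ℂ, z.re < 0 → GD z = 0 → G' z ≠ 0) ∧
        (D ≠ 1 → ∀ K : ℂ → ℂ, Differentiable ℂ K →
          ¬ ∀ s : ℂ, 1 < s.re → LSeries (fun n => (F * H a) n) s = LSeries (fun n => D n) s * K s)) ∧
      (∀ n : ℕ, 1 ≤ n → G' (-2 * n) ≠ 0) ∧
      ∀ j : ℕ, 1 ≤ j → ∀ K : ℂ → ℂ, Differentiable ℂ K →
        ¬ ∀ s : ℂ, 1 < s.re → LSeries (fun n => (F * H a) n) s = riemannZeta s ^ j * K s := by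
  obtain ⟨hc, hQ, hFE⟩ := data_iff.1 hdat
  have hS := (isSelberg_iff F).1 hF
  -- the continuations
  have hch : ∀ D : ArithmeticFunction ℂ, ∃ (n : ℕ) (GD : ℂ → ℂ), IsSelberg D → IsCont D n GD := by
    intro D
    by_cases hD : IsSelberg D
    · obtain ⟨n, GD, _, _, _, _, _, hd⟩ := hD.cont
      exact ⟨n, GD, fun _ => ⟨hd.1, hd.2.2.1⟩⟩
    · exact ⟨0, 0, fun h => absurd h hD⟩
  choose nD GD hGD using hch
  have hne : ∀ D : ArithmeticFunction ℂ, IsSelberg D → ∃ s, GD D s ≠ 0 := by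
    intro D hD
    refine ⟨2, ?_⟩
    rw [(hGD D hD).2 2 (by norm_num)]
    exact mul_ne_zero (pow_ne_zero _ (by norm_num)) (NP.LS_ne ((isSelberg_iff D).1 hD) (by norm_num))
  set Z : Set ℂ := (Set.range fun n : ℕ => (-2 * ((n : ℕ) : ℂ))) ∪ ⋃ D ∈ E, {z | IsSelberg D ∧ GD D z = 0} with hZ
  have hZc : Z.Countable := by
    rw [hZ]
    refine (Set.countable_range _).union (hE.biUnion fun D _ => ?_)
    by_cases hD : IsSelberg D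
    · exact (ZP.zeros_countable (hGD D hD).1 (hne D hD)).mono fun z hz => hz.2
    · have : {z | IsSelberg D ∧ GD D z = 0} = ∅ := by
        ext z
        simp [hD]
      rw [this]
      exact Set.countable_empty
  obtain ⟨a, G', q, L, a0, a1, a2, a3, a4, a5, a6, a7, a8, a9⟩ := NP.count hS hc hQ hFE hZc hδ hδ2 hη
  have hcls := NP.mul_S hS a4 a6 a0 a7
  have hS' := Pool.Agent.H177R3.PFV.cls_ss hcls
  have hev : ∀ n : ℕ, 1 ≤ n → G' (-2 * n) ≠ 0 := by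
    intro n hn
    have hn0 : (0:ℝ) < n := by exact_mod_cast hn
    exact a9 _ (Or.inl ⟨n, rfl⟩) (by simp; linarith)
  have hcom : ∀ D ∈ E, IsSelberg D → ∀ (n : ℕ) (GD : ℂ → ℂ), IsCont D n GD → ∀ z : ℂ, z.re < 0 → GD z = 0 →
      G' z ≠ 0 := by
    intro D hDE hD n g hg z hz hz0
    have h1 := NP.uniq hg.1 hg.2 (hGD D hD).1 (hGD D hD).2 z
    rw [hz0, mul_zero] at h1
    have h2 : z - 1 ≠ 0 := by
      intro h
      rw [sub_eq_zero.1 h] at hz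
      norm_num at hz
    have h3 : GD D z = 0 := by
      rcases mul_eq_zero.1 h1.symm with h | h
      · exact absurd h (pow_ne_zero _ h2)
      · exact h
    exact a9 z (Or.inr (Set.mem_biUnion hDE ⟨hD, h3⟩)) hz
  refine ⟨a, G', q, L, a2, small_of a4 a5, (isSelberg_iff _).2 hS', data_iff.2 ⟨a6, a0, a7⟩,
    fun hG1 => ?_, a8, fun D hDE hD => ⟨hcom D hDE hD, fun hD1 K hK he => ?_⟩, hev, fun j hj K hK he => ?_⟩
  · obtain ⟨h3, h4⟩ := NP.value_one hS hc a4 (by linarith) a5 a6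
    rw [h3]
    exact mul_ne_zero hG1 h4
  · obtain ⟨z, hz, hz0⟩ := NP.trivial_zero ((isSelberg_iff D).1 hD) hD1
    obtain ⟨n, g, _, _, _, _, _, hd⟩ := hD.cont
    have h1 : g z = 0 := hz0 n g (data_iff.1 hd).1
    refine hcom D hDE hD n g ⟨hd.1, hd.2.2.1⟩ z hz h1 ?_
    exact NP.quot_zero a6.1 a6.2.2 hd.1 hd.2.2.1 hK he (by
      rintro rfl
      norm_num at hz) h1
  · have h1 : (-2 * ((1 : ℕ) : ℂ)) ≠ 1 := by norm_num
    obtain ⟨-, hz, -⟩ := NP.zeta_pow j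
    refine hev 1 le_rfl (NP.quot_zero a6.1 a6.2.2 hz.1 hz.2.2 hK (fun s hs => ?_) h1 ?_)
    · refine (he s hs).trans ?_
      have h3 : ∀ j : ℕ, LSeries (fun n => (UF.Zt ^ j) n) s = riemannZeta s ^ j := by
        intro j
        have h4 := (NP.zeta_pow j).2.1.2.2 s hs
        have hs1 : s ≠ 1 := by rintro rfl; simp at hs
        beta_reduce at h4
        rw [Pool.Agent.H486R3.PZZ.Z_ne hs1, mul_pow] at h4
        exact (mul_left_cancel₀ (pow_ne_zero _ (sub_ne_zero.2 hs1)) h4).symm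
      rw [h3]
    · rw [Pool.Agent.H486R3.PZZ.Z_ne h1]
      have h8 : riemannZeta (-2 * ((1 : ℕ) : ℂ)) = 0 := by
        have := riemannZeta_neg_two_mul_nat_add_one 0
        simpa using this
      rw [h8, mul_zero, zero_pow (by omega)]

open Pool.Agent.H483 in
/-- **Main theorem.** -/
theorem result :
    -- 1. `ζ` has a zero on the critical line
    (∃ γ : ℝ, 0 < γ ∧ riemannZeta (1 / 2 + γ * I) = 0) ∧
    -- 2. prescribed functional equation, and no zero in common with `F`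
    (∀ (F : ArithmeticFunction ℂ) (m : ℕ) (G : ℂ → ℂ) (Q : ℝ) (k : ℕ) (lam : Fin k → ℝ) (mu : Fin k → ℂ) (ω : ℂ),
      IsSelberg F → HasData F m G Q k lam mu ω → ∀ δ : ℝ, 0 < δ → δ ≤ 77 / 400 →
      ∀ (r : ℕ) (l : Fin r → ℝ) (ν : Fin r → ℂ), (∀ j, 0 < l j) → (∀ j, 0 ≤ (ν j).re) →
      2 * ∑ j, lam j + 1 / δ < 2 * ∑ j, l j → m ≤ {j : Fin r | ν j = 0}.ncard →
      ∃ q₀ : ℝ, ∀ q : ℝ, q₀ ≤ q → ∀ ε : ℂ, ‖ε‖ = 1 → ∃ (a : ℕ → ℂ) (G' : ℂ → ℂ), IsSmall a (1 / 2 + δ) ∧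
        IsSelberg (F * H a) ∧ HasData (F * H a) m G' q r l ν ε ∧ (G 1 ≠ 0 → G' 1 ≠ 0) ∧
        (∀ ρ : ℂ, |ρ.re - 1 / 2| < δ → G ρ = 0 → G' ρ ≠ 0) ∧
        ∀ z : ℂ, z.re < 0 → NoPole r l ν z → G' z ≠ 0) ∧
    -- 3. countably many possible divisors
    (∀ (F : ArithmeticFunction ℂ) (m : ℕ) (G : ℂ → ℂ) (Q : ℝ) (k : ℕ) (lam : Fin k → ℝ) (mu : Fin k → ℂ) (ω : ℂ),
      IsSelberg F → HasData F m G Q k lam mu ω → ∀ δ : ℝ, 0 < δ → δ ≤ 77 / 400 →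
      ∀ η : ℝ, 2 * ∑ j, lam j + 1 / δ < η → ∀ E : Set (ArithmeticFunction ℂ), E.Countable →
      ∃ (a : ℕ → ℂ) (G' : ℂ → ℂ) (q L : ℝ), 2 * ((m + 1) * L) < η ∧ IsSmall a (1 / 2 + δ) ∧
        IsSelberg (F * H a) ∧ HasData (F * H a) m G' q (m + 1) (fun _ => L) (fun _ => 0) 1 ∧ (G 1 ≠ 0 → G' 1 ≠ 0) ∧
        (∀ ρ : ℂ, |ρ.re - 1 / 2| < δ → G ρ = 0 → G' ρ ≠ 0) ∧
        (∀ D ∈ E, IsSelberg D →
          (∀ (n : ℕ) (GD : ℂ → ℂ), IsCont D n GD → ∀ z : ℂ, z.re < 0 → GD z = 0 → G' z ≠ 0) ∧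
          (D ≠ 1 → ∀ K : ℂ → ℂ, Differentiable ℂ K →
            ¬ ∀ s : ℂ, 1 < s.re → LSeries (fun n => (F * H a) n) s = LSeries (fun n => D n) s * K s)) ∧
        (∀ n : ℕ, 1 ≤ n → G' (-2 * n) ≠ 0) ∧
        ∀ j : ℕ, 1 ≤ j → ∀ K : ℂ → ℂ, Differentiable ℂ K →
          ¬ ∀ s : ℂ, 1 < s.re → LSeries (fun n => (F * H a) n) s = riemannZeta s ^ j * K s) ∧
    -- 4. the case `F = ζ^m`
    ∀ m : ℕ, IsSelberg (Zeta ^ m) ∧
      ∀ (r : ℕ) (l : Fin r → ℝ) (ν : Fin r → ℂ), (∀ j, 0 < l j) → (∀ j, 0 ≤ (ν j).re) →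
      (m : ℝ) + 400 / 77 < 2 * ∑ j, l j → m ≤ {j : Fin r | ν j = 0}.ncard →
      ∃ q₀ : ℝ, ∀ q : ℝ, q₀ ≤ q → ∀ ε : ℂ, ‖ε‖ = 1 → ∃ (a : ℕ → ℂ) (G' : ℂ → ℂ), IsSmall a (277 / 400) ∧
        IsSelberg (Zeta ^ m * H a) ∧ HasData (Zeta ^ m * H a) m G' q r l ν ε ∧ G' 1 ≠ 0 ∧
        (1 ≤ m → ∀ ρ : ℂ, riemannZeta ρ = 0 → |ρ.re - 1 / 2| < 77 / 400 → G' ρ ≠ 0) ∧
        ∀ n : ℕ, 1 ≤ n → NoPole r l ν (-2 * n) → G' (-2 * n) ≠ 0 := by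
  refine ⟨Pool.Agent.H902R3.PZ.taskE, main, main2, fun m => ?_⟩
  obtain ⟨z1, z2, Q, k, lam, mu, ω, hQ, hFE, hdeg⟩ := NP.zeta_pow m
  refine ⟨(isSelberg_iff _).2 z1, fun r l ν hl hν hd hm => ?_⟩
  obtain ⟨q₀, h⟩ := main (Zeta ^ m) m _ Q k lam mu ω ((isSelberg_iff _).2 z1) (data_iff.2 ⟨z2, hQ, hFE⟩) (77 / 400)
    (by norm_num) le_rfl r l ν hl hν (by rw [hdeg]; norm_num; linarith) hm
  refine ⟨q₀, fun q hq ε hε => ?_⟩
  obtain ⟨a, G', a1, a2, a3, a4, a5, a6⟩ := h q hq ε hε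
  have e1 : (1:ℝ) / 2 + 77 / 400 = 277 / 400 := by norm_num
  rw [e1] at a1
  refine ⟨a, G', a1, a2, a3, a4 ?_, fun hm1 ρ hρ hρ2 => a5 ρ hρ2 ?_, fun n hn hnp => a6 _ ?_ hnp⟩
  · rw [Pool.Agent.H486R3.PZZ.Z_one, one_pow]
    exact one_ne_zero
  · have h1 : ρ ≠ 1 := by rintro rfl; exact riemannZeta_one_ne_zero hρ
    rw [Pool.Agent.H486R3.PZZ.Z_ne h1, hρ, mul_zero, zero_pow (by omega)]
  · have hn0 : (0:ℝ) < n := by exact_mod_cast hn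
    simp
    linarith

end Pool.Agent.Results.MP_995735_nt.NearEveryElement
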