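import Pool.Agent.H616.SQ.Zm
import Pool.Graph.R_seed8.H902R3.PZ.Dat

/-!
# Poles at `s = 1` in the polynomial Selberg class with unimodular Satake parameters

The prediction that a pole of order `m` at `s = 1` comes from `m` factors `ζ` is made for L-functions of motives and of
automorphic representations. These have all the following properties: polynomial Euler product
`F(s) = ∏_p ∏_{j ≤ M} (1 - α_j(p) p^{-s})⁻¹`, `|α_j(p)| = 1` for all large `p`, `M` equal to the degree of the functional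
equation, gamma factors `Γ((s + μ)/2)`, an integral conductor. We show that the prediction fails for members of the
Selberg class with all these properties, although `m` of the `α_j(p)` are equal to `1` for every prime `p`: there is a
member with a pole of order exactly `m` at `s = 1` which vanishes at no zero `ρ` of `ζ` with `|Re ρ - 1/2| < 77/400`.
-/

set_option autoImplicit false

open Complex

namespace Pool.Agent.Results.MP_995735_nt.TemperedNoCommonZeros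

/-- The completed function `Φ(s) = Q^s ∏_{j < k} Γ(lam_j s + mu_j) F(s)`. -/
noncomputable def Phi (F : ℂ → ℂ) (Q : ℝ) {k : ℕ} (lam : Fin k → ℝ) (mu : Fin k → ℂ) (s : ℂ) : ℂ :=
  (Q : ℂ) ^ s * (∏ j, Gamma ((lam j : ℂ) * s + mu j)) * F s

/-- no gamma factor has a pole at `s` -/
def Regular {k : ℕ} (lam : Fin k → ℝ) (mu : Fin k → ℂ) (s : ℂ) : Prop :=
  ∀ j, ∀ n : ℕ, (lam j : ℂ) * s + mu j ≠ -(n : ℂ)

/-- The Selberg class: `a` is the sequence of coefficients of the Dirichlet series and `F` is its continuation to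
`ℂ \ {1}` (the value of `F` at `1` is irrelevant); the functional equation has the data `Q`, `lam`, `mu`, `ω`. -/
structure IsSelberg (a : ℕ → ℂ) (F : ℂ → ℂ) (Q : ℝ) {k : ℕ} (lam : Fin k → ℝ) (mu : Fin k → ℂ) (ω : ℂ) : Prop where
  /-- axiom 1: absolute convergence for `Re s > 1` -/
  abs_conv : ∀ s : ℂ, 1 < s.re → LSeriesSummable a s
  /-- `F` is the sum of the Dirichlet series for `Re s > 1` -/
  eq_series : ∀ s : ℂ, 1 < s.re → F s = LSeries a s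
  /-- axiom 2: some `(s - 1)^m F(s)` is entire of finite order -/
  continuation : ∃ (m : ℕ) (G : ℂ → ℂ), Differentiable ℂ G ∧
    (∃ A B : ℝ, ∀ s : ℂ, ‖G s‖ ≤ A * Real.exp (‖s‖ ^ B)) ∧ ∀ s : ℂ, s ≠ 1 → G s = (s - 1) ^ m * F s
  /-- axiom 3, the data -/
  data : 0 < Q ∧ (∀ j, 0 < lam j) ∧ (∀ j, 0 ≤ (mu j).re) ∧ ‖ω‖ = 1
  /-- axiom 3: functional equation `Φ(s) = ω conj Φ(1 - conj s)`, at every `s ≠ 0, 1` at which no gamma factor of
  `Φ(s)` or `Φ(1 - conj s)` has a pole -/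
  functional : ∀ s : ℂ, s ≠ 0 → s ≠ 1 → Regular lam mu s → Regular lam mu (1 - starRingEnd ℂ s) →
      Phi F Q lam mu s = ω * starRingEnd ℂ (Phi F Q lam mu (1 - starRingEnd ℂ s))
  /-- axiom 4: `a(n) ≪ n^ε` -/
  ramanujan : ∀ ε : ℝ, 0 < ε → ∃ C : ℝ, ∀ n : ℕ, 1 ≤ n → ‖a n‖ ≤ C * (n : ℝ) ^ ε
  /-- axiom 5, first part -/
  a_one : a 1 = 1
  /-- axiom 5: `F(s) = ∏_p exp (∑_{l ≥ 1} b(p^l) p^{-ls})`, `b(p^l) ≪ p^{lθ}`, `θ < 1/2` -/
  euler : ∃ (b : ℕ → ℂ) (θ C : ℝ), θ < 1 / 2 ∧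
    (∀ p l : ℕ, p.Prime → 1 ≤ l → ‖b (p ^ l)‖ ≤ C * ((p ^ l : ℕ) : ℝ) ^ θ) ∧
    ∀ s : ℂ, 1 < s.re → HasProd (fun p : Nat.Primes =>
      exp (∑' l : ℕ, b ((p : ℕ) ^ (l + 1)) * ((p : ℕ) : ℂ) ^ (-(((l + 1 : ℕ) : ℂ) * s)))) (F s)

/-- Euler product of rank `M` with unimodular Satake parameters, `m` of them equal to `1`: `a` is multiplicative,
`∑_k a(p^k) X^k = ∏_{j < M} (1 - α_j(p) X)⁻¹` for every prime `p`, `α_j(p) = 1` for `j < m` and every `p`, all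
`|α_j(p)| = 1` for `p > P₀`, and `α_j(p) = 0` for `j ≥ m` and `p ≤ P₀`. -/
def Tempered (a : ℕ → ℂ) (m M : ℕ) (α : ℕ → Fin M → ℂ) (P₀ : ℝ) : Prop :=
  (∀ x y : ℕ, Nat.Coprime x y → a (x * y) = a x * a y) ∧
  (∀ p : ℕ, p.Prime → PowerSeries.mk (fun k => a (p ^ k)) *
    ((∏ j, (1 - Polynomial.C (α p j) * Polynomial.X) : Polynomial ℂ) : PowerSeries ℂ) = 1) ∧
  (∀ p : ℕ, p.Prime → ∀ j : Fin M, (j : ℕ) < m → α p j = 1) ∧
  (∀ p : ℕ, p.Prime → P₀ < p → ∀ j, ‖α p j‖ = 1) ∧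
  (∀ p : ℕ, p.Prime → (p : ℝ) ≤ P₀ → ∀ j : Fin M, m ≤ (j : ℕ) → α p j = 0)

open Pool.Agent.H616.SP Pool.Agent.H616.SP.Q in
/-- the Euler product -/
lemma euler_of {m n : ℕ} {f : ℕ → ℂ} {al : ℕ → Fin m → ℂ} {be : ℕ → Fin n → ℂ} (h : RP f al be) {F : ℂ → ℂ}
    (hF : ∀ s : ℂ, 1 < s.re → LSeriesSummable f s ∧ LSeries f s = F s) :
    ∃ (b : ℕ → ℂ) (θ C : ℝ), θ < 1 / 2 ∧
    (∀ p l : ℕ, p.Prime → 1 ≤ l → ‖b (p ^ l)‖ ≤ C * ((p ^ l : ℕ) : ℝ) ^ θ) ∧
    ∀ s : ℂ, 1 < s.re → HasProd (fun p : Nat.Primes =>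
      exp (∑' l : ℕ, b ((p : ℕ) ^ (l + 1)) * ((p : ℕ) : ℂ) ^ (-(((l + 1 : ℕ) : ℂ) * s)))) (F s) := by
  refine ⟨bcq al be, 0, m + n, by norm_num, fun p l hp hl => ?_, fun s hs => ?_⟩
  · rw [Real.rpow_zero, mul_one]
    exact bcq_le h hp (by omega)
  · rw [← (hF s hs).2]
    exact h.exp (by linarith) (hF s hs).1

open Pool.Agent.H616.SP Pool.Agent.H616.SP.Q in
/-- the main construction -/
theorem main (k : ℕ) (lam : Fin k → ℝ) (mu : Fin k → ℂ) (J : Finset (Fin k)) (hl : ∀ j, 0 < lam j)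
    (hm : ∀ j, 0 ≤ (mu j).re) (hJ : ∀ j ∈ J, mu j = 0) (hJ1 : 1 ≤ J.card)
    (hd : (J.card : ℝ) + 400 / 77 < 2 * ∑ j, lam j) (M : ℕ) (hM : J.card + 6 ≤ M) :
    ∃ Q₀ : ℝ, ∀ Q : ℝ, Q₀ ≤ Q → ∀ ω : ℂ, ‖ω‖ = 1 →
      ∃ (a : ℕ → ℂ) (F : ℂ → ℂ) (α : ℕ → Fin M → ℂ) (P₀ : ℝ),
      IsSelberg a F Q lam mu ω ∧ Tempered a J.card M α P₀ ∧
      meromorphicOrderAt F 1 = ((-(J.card : ℤ) : ℤ) : WithTop ℤ) ∧
      (∀ ρ : ℂ, riemannZeta ρ = 0 → |ρ.re - 1 / 2| < 77 / 400 → F ρ ≠ 0) ∧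
      (∀ n : ℕ, 1 ≤ n → Regular lam mu (-2 * n) → F (-2 * n) ≠ 0) := by
  set m := J.card with hmm
  obtain ⟨l, hl3, rfl⟩ : ∃ l, 3 ≤ l ∧ M = m + (3 + l) := ⟨M - m - 3, by omega, by omega⟩
  obtain ⟨Q₀, hQ₀, H⟩ := family_pole (mu := mu) hl hm (m := m) hJ1 hd (Loc_const (PF_uni hl3).loc)
  refine ⟨Q₀, fun Q hQ ω hω => ?_⟩
  have hQ0 : 0 < Q := lt_of_lt_of_le one_pos (hQ₀.trans hQ)
  obtain ⟨c, hc, hcω⟩ := Pool.Agent.H483.SA.exists_root hω
  have hc0 : c ≠ 0 := by rintro rfl; simp at hc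
  obtain ⟨f, a0, P0, Λ, k2, k3, k4, k5, k6, k7, k8⟩ := H Q hQ c hc
  obtain ⟨al, hRP, hal1, hal2⟩ := k2.rp (PF_uni hl3) (m := 3 + l) (N := fun z => ‖z‖ = 1) (fun _ h => h.le)
    (fun _ ha => uni_roots (by omega) ha)
  obtain ⟨G, g1, g2, g3, g4, g5⟩ := Pool.Agent.H483.ZP.gfun hc0 hQ0 hl hm hJ (α := 77 / 400) (by norm_num) (by norm_num)
    k2.f0 k3 k4 k5 k6 k7
  rw [hcω] at g5
  rw [← hmm] at g3 g5
  set F : ℂ → ℂ := fun s => G s / (s - 1) ^ m with hF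
  have hsum : ∀ s : ℂ, 1 < s.re → LSeriesSummable f s := fun s hs => (k7 s (by norm_num; linarith)).1
  have hFz : ∀ s : ℂ, 1 < s.re → F s = riemannZeta s ^ m * LSeries f s := by
    intro s hs
    have hs1 : s ≠ 1 := by rintro rfl; simp at hs
    have h1 : (s - 1) ^ m ≠ 0 := pow_ne_zero _ (sub_ne_zero.2 hs1)
    simp only [hF]
    rw [g3 s (by linarith), Pool.Agent.H483.ZP.Zf_of hs1, mul_pow]
    field_simp
  have hne : ∀ s : ℂ, 1 < s.re → F s ≠ 0 := by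
    intro s hs
    rw [hFz s hs]
    exact mul_ne_zero (pow_ne_zero _ (riemannZeta_ne_zero_of_one_lt_re hs)) (hRP.ne (by linarith) (hsum s hs))
  have hfun : ∀ s : ℂ, s ≠ 0 → s ≠ 1 → Regular lam mu s → Regular lam mu (1 - starRingEnd ℂ s) →
      Phi F Q lam mu s = ω * starRingEnd ℂ (Phi F Q lam mu (1 - starRingEnd ℂ s)) :=
    fun s h0 h1 h2 h3 => g5 s h0 h1 h2 h3
  have hpos : ∀ s : ℂ, 0 < s.re → Regular lam mu s := by
    intro s hs j n h
    have h1 := congrArg Complex.re h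
    rw [Pool.Agent.H483.FE.re_aff] at h1
    have h2 := mul_pos (hl j) hs
    have h3 := hm j
    have h4 : (0:ℝ) ≤ n := Nat.cast_nonneg n
    simp at h1
    linarith
  have hZ := hRP.zeta_mul m
  have hser : ∀ s : ℂ, 1 < s.re → LSeriesSummable (fun n => (zt ^ m * af f hRP.f0) n) s ∧
      LSeries (fun n => (zt ^ m * af f hRP.f0) n) s = F s := by
    intro s hs
    have h1 := zt_series (g := af f hRP.f0) hs (hsum s hs) m
    refine ⟨h1.1, ?_⟩
    rw [h1.2, hFz s hs]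
    rfl
  refine ⟨fun n => (zt ^ m * af f hRP.f0) n, F, fun p => Fin.append (fun _ : Fin m => (1:ℂ)) (al p), P0,
    ⟨fun s hs => (hser s hs).1, fun s hs => (hser s hs).2.symm, ⟨m, G, g1, ?_, fun s hs => ?_⟩,
    ⟨hQ0, hl, hm, hω⟩, hfun, hZ.ram, hZ.f1, euler_of hZ hser⟩,
    ⟨hZ.mul, fun p hp => ?_, fun p hp j hj => ?_, fun p hp hlt j => ?_, fun p hp hle j hj => ?_⟩, ?_, ?_, ?_⟩
  · obtain ⟨B, A, h⟩ := g2.order
    exact ⟨A, B, h⟩
  · have h1 : (s - 1) ^ m ≠ 0 := pow_ne_zero _ (sub_ne_zero.2 hs)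
    simp only [hF]
    field_simp
  · have h1 := hZ.loc p hp
    rw [Finset.univ_eq_empty (α := Fin 0), Finset.prod_empty, Polynomial.coe_one] at h1
    exact h1
  · have e : j = Fin.castAdd (3 + l) ⟨j, hj⟩ := by ext; rfl
    beta_reduce
    rw [e, Fin.append_left]
  · beta_reduce
    refine Fin.addCases (fun i => ?_) (fun i => ?_) j
    · rw [Fin.append_left]; simp
    · rw [Fin.append_right]; exact hal1 p hp hlt i
  · have e : j = Fin.natAdd m ⟨j - m, by omega⟩ := by ext; simp; omega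
    beta_reduce
    rw [e, Fin.append_right]
    exact hal2 p hp hle _
  · have hG1 : G 1 ≠ 0 := by
      rw [g3 1 (by norm_num), Pool.Agent.H483.ZP.Zf_one, one_pow, one_mul]
      exact hRP.ne (by norm_num) (k7 1 (by norm_num)).1
    rw [meromorphicOrderAt_eq_int_iff]
    · refine ⟨G, g1.analyticAt 1, hG1, ?_⟩
      filter_upwards [self_mem_nhdsWithin] with s hs
      simp only [hF, smul_eq_mul, zpow_neg, zpow_natCast]
      rw [div_eq_mul_inv, mul_comm]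
    · apply MeromorphicAt.div (g1.analyticAt 1).meromorphicAt
      exact (by fun_prop : AnalyticAt ℂ (fun s : ℂ => (s - 1) ^ m) 1).meromorphicAt
  · intro ρ hρ hρ2
    have h1 : ρ ≠ 1 := by rintro rfl; exact riemannZeta_one_ne_zero hρ
    have h2 : 0 < ρ.re := by
      have := (abs_lt.1 hρ2).1
      linarith
    simp only [hF]
    exact div_ne_zero (g4 ρ h2 (k8 ρ hρ hρ2)) (pow_ne_zero _ (sub_ne_zero.2 h1))
  · intro n hn hreg hF0
    have hn0 : (0:ℝ) < n := by exact_mod_cast hn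
    set s : ℂ := -2 * n with hs
    have hsre : s.re = -2 * n := by rw [hs]; simp
    have hs0 : s ≠ 0 := by
      intro h
      rw [h] at hsre
      simp at hsre
      linarith
    have hs1 : s ≠ 1 := by
      intro h
      rw [h] at hsre
      simp at hsre
      linarith
    have hre : (1 - starRingEnd ℂ s).re = 1 + 2 * n := by
      simp only [Complex.sub_re, Complex.one_re, Complex.conj_re, hsre]
      ring
    have hfe := hfun s hs0 hs1 hreg (hpos _ (by rw [hre]; linarith))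
    have hL : Phi F Q lam mu s = 0 := by unfold Phi; rw [hF0, mul_zero]
    rw [hL] at hfe
    have hω0 : ω ≠ 0 := by rintro rfl; simp at hω
    have h3 : Phi F Q lam mu (1 - starRingEnd ℂ s) = 0 := by
      rcases mul_eq_zero.1 hfe.symm with h | h
      · exact absurd h hω0
      · simpa using h
    unfold Phi at h3
    have h4 : (Q : ℂ) ^ (1 - starRingEnd ℂ s) ≠ 0 := by
      rw [Ne, Complex.cpow_eq_zero_iff]
      push Not
      intro h
      exact absurd h (by exact_mod_cast hQ0.ne')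
    have h5 : (∏ j, Gamma ((lam j : ℂ) * (1 - starRingEnd ℂ s) + mu j)) ≠ 0 := by
      rw [Finset.prod_ne_zero_iff]
      intro j _
      exact Complex.Gamma_ne_zero (hpos (1 - starRingEnd ℂ s) (by rw [hre]; linarith) j)
    have h6 := hne (1 - starRingEnd ℂ s) (by rw [hre]; linarith)
    exact mul_ne_zero (mul_ne_zero h4 h5) h6 h3

/-- **Theorem.**
(1) `ζ` has a zero `1/2 + iγ` with `γ > 0`.
(2) Let `∏ Γ(lam_j s + mu_j)` (`lam_j > 0`, `Re mu_j ≥ 0`) be a gamma factor, `J` a set of `m ≥ 1` indices with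
`mu_j = 0` for `j ∈ J`, and let the degree `2 ∑ lam_j` be `> m + 400/77`. For every rank `M ≥ m + 6`, every large real
`Q` and every `|ω| = 1` there is a member `F` of the Selberg class with functional equation data `(Q; lam; mu; ω)`,
with an Euler product of rank `M` with unimodular Satake parameters, `m` of them equal to `1` at every prime, and with
a pole of order exactly `m` at `s = 1`, such that `F(ρ) ≠ 0` for every zero `ρ` of `ζ` with `|Re ρ - 1/2| < 77/400`,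
and `F(-2n) ≠ 0` for every `n ≥ 1` for which `-2n` is not a pole of a gamma factor.
(3) For every `m ≥ 1` and every `M ≥ m + 6` there is `N₀` such that for every integer `N ≥ N₀` there is such an `F`
with the functional equation of `N^{s/2} (π^{-s/2} Γ(s/2))^M F(s)`, root number `1`: degree and rank are both `M`, the
conductor is `N`; and `F / ζ^j` is not entire for any `j ≥ 1`. -/
theorem result :
    (∃ γ : ℝ, 0 < γ ∧ riemannZeta (1 / 2 + γ * I) = 0) ∧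
    (∀ (k : ℕ) (lam : Fin k → ℝ) (mu : Fin k → ℂ) (J : Finset (Fin k)), (∀ j, 0 < lam j) →
      (∀ j, 0 ≤ (mu j).re) → (∀ j ∈ J, mu j = 0) → 1 ≤ J.card → (J.card : ℝ) + 400 / 77 < 2 * ∑ j, lam j →
      ∀ M : ℕ, J.card + 6 ≤ M → ∃ Q₀ : ℝ, ∀ Q : ℝ, Q₀ ≤ Q → ∀ ω : ℂ, ‖ω‖ = 1 →
      ∃ (a : ℕ → ℂ) (F : ℂ → ℂ) (α : ℕ → Fin M → ℂ) (P₀ : ℝ),
        IsSelberg a F Q lam mu ω ∧ Tempered a J.card M α P₀ ∧
        meromorphicOrderAt F 1 = ((-(J.card : ℤ) : ℤ) : WithTop ℤ) ∧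
        (∀ ρ : ℂ, riemannZeta ρ = 0 → |ρ.re - 1 / 2| < 77 / 400 → F ρ ≠ 0) ∧
        (∀ n : ℕ, 1 ≤ n → Regular lam mu (-2 * n) → F (-2 * n) ≠ 0)) ∧
    ∀ m : ℕ, 1 ≤ m → ∀ M : ℕ, m + 6 ≤ M → ∃ N₀ : ℕ, ∀ N : ℕ, N₀ ≤ N →
      ∃ (a : ℕ → ℂ) (F : ℂ → ℂ) (α : ℕ → Fin M → ℂ) (P₀ : ℝ),
        IsSelberg a F (Real.sqrt (N / Real.pi ^ M)) (fun _ : Fin M => 1 / 2) (fun _ => 0) 1 ∧
        Tempered a m M α P₀ ∧
        meromorphicOrderAt F 1 = ((-(m : ℤ) : ℤ) : WithTop ℤ) ∧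
        (∀ ρ : ℂ, riemannZeta ρ = 0 → |ρ.re - 1 / 2| < 77 / 400 → F ρ ≠ 0) ∧
        ∀ j : ℕ, 1 ≤ j → ¬ ∃ L : ℂ → ℂ, Differentiable ℂ L ∧ ∀ s : ℂ, s ≠ 1 → F s = riemannZeta s ^ j * L s := by
  refine ⟨Pool.Agent.H902R3.PZ.taskE, main, fun m hm M hM => ?_⟩
  have hM0 : (m : ℝ) + 6 ≤ M := by exact_mod_cast hM
  set J : Finset (Fin M) := Finset.univ.filter (fun j : Fin M => (j : ℕ) < m) with hJ
  have hJc : J.card = m := by
    rw [hJ, Fin.card_filter_val_lt]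
    omega
  obtain ⟨Q₀, H⟩ := main M (fun _ => 1 / 2) (fun _ => 0) J (fun _ => by norm_num)
    (fun _ => by simp) (fun _ _ => rfl) (by omega) (by
      simp only [Finset.card_univ, Fintype.card_fin, Finset.sum_const, nsmul_eq_mul]
      rw [hJc]
      linarith) M (by omega)
  have hpi : 0 < Real.pi ^ M := by positivity
  obtain ⟨N₀, hN₀⟩ := exists_nat_ge (|Q₀| ^ 2 * Real.pi ^ M)
  refine ⟨N₀, fun N hN => ?_⟩
  have hQ : Q₀ ≤ Real.sqrt (N / Real.pi ^ M) := by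
    refine (le_abs_self Q₀).trans (Real.le_sqrt_of_sq_le ?_)
    rw [le_div_iff₀ hpi]
    have : (N₀ : ℝ) ≤ N := by exact_mod_cast hN
    linarith
  obtain ⟨a, F, α, P₀, h3, h3', h4, h5, -⟩ := H _ hQ 1 (by simp)
  rw [hJc] at h3' h4
  refine ⟨a, F, α, P₀, h3, h3', h4, h5, ?_⟩
  rintro j hj ⟨L, -, hL⟩
  obtain ⟨γ, -, hγ⟩ := Pool.Agent.H902R3.PZ.taskE
  have h6 := h5 (1 / 2 + γ * I) hγ (by simp)
  rw [hL _ (by rintro h; rw [h] at hγ; exact riemannZeta_one_ne_zero hγ), hγ, zero_pow (by omega), zero_mul] at h6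
  exact h6 rfl

end Pool.Agent.Results.MP_995735_nt.TemperedNoCommonZeros
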